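import Pool.Agent.NH43.N.AllN
import Pool.Agent.NH43.N.Seq
import Pool.Agent.NH43.N.Sep

set_option autoImplicit false

/-!
# The star discrepancy of digital nets and digital sequences

Let `p` be a prime and `t ≥ 0`.

* Nets.  For every `d ≥ 3` there is `c > 0` such that every digitally shifted digital
  `(t,m,d)`-net over `ZMod p` (any generating matrices, any shift, any digits behind the first `m`)
  has star discrepancy at least `c m^(d-1) / p^m`, which is at least `c m^(1/9)` times the optimal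
  star discrepancy `D(p^m, d)_∞`.
* Sequences.  For every `s ≥ 2` there is `c > 0` such that for every digitally shifted digital
  `(t,s)`-sequence over `ZMod p` and every `m` there is `1 ≤ N ≤ p^m` such that the first `N` terms
  have star discrepancy at least `c m^s / N`.
-/

namespace Pool.Agent.Results.MP_173de9_an.DigitalNets

open Finset MeasureTheory

/-- The local discrepancy `∏ x_j - (1/m) Σ_μ χ_{[0,x]}(ξ^μ)` of `m` points `ξ` at `x`. -/
noncomputable def localDisc {m d : ℕ} (ξ : Fin m → Fin d → ℝ) (x : Fin d → ℝ) : ℝ :=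
  ∏ j, x j - (1 / (m:ℝ)) * ∑ μ : Fin m, (Set.Icc (0 : Fin d → ℝ) x).indicator (fun _ => (1:ℝ)) (ξ μ)

/-- `D(ξ,m,d)_∞`: the `L_∞` norm of the local discrepancy over `[0,1]^d`. -/
noncomputable def starDisc {m d : ℕ} (ξ : Fin m → Fin d → ℝ) : ENNReal :=
  eLpNorm (localDisc ξ) ⊤ (volume.restrict (Set.Icc (0 : Fin d → ℝ) 1))

/-- `D(m,d)_∞`: the infimum over all `m`-point sets (repetitions allowed) in `[0,1]^d`. -/
noncomputable def optDisc (m d : ℕ) : ENNReal :=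
  ⨅ (ξ : Fin m → Fin d → ℝ) (_ : ∀ μ, ξ μ ∈ Set.Icc (0 : Fin d → ℝ) 1), starDisc ξ

/-- The digit number `i` (`i = 0` is the first one) of `y ∈ [0,1)` in base `p`, modulo `p`. -/
noncomputable def digit (p : ℕ) (y : ℝ) (i : ℕ) : ZMod p := ((⌊(p:ℝ) ^ (i + 1) * y⌋₊ : ℕ) : ZMod p)

open Classical in
/-- `(t,m,d)`-nets in base `b`: every elementary interval `∏ [v_i b^(-k_i), (v_i+1) b^(-k_i))` of
volume `b^(t-m)` contains exactly `b^t` of the `b^m` points. -/
def IsNet (b t m : ℕ) {d : ℕ} (ξ : Fin (b ^ m) → Fin d → ℝ) : Prop :=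
  ∀ k v : Fin d → ℕ, ∑ i, k i + t = m → (∀ i, v i < b ^ k i) →
    (univ.filter (fun μ => ∀ i, (v i : ℝ) / (b:ℝ) ^ k i ≤ ξ μ i ∧
      ξ μ i < ((v i : ℝ) + 1) / (b:ℝ) ^ k i)).card = b ^ t

/-- Digitally shifted digital point sets over `ZMod p`: up to the order of the points, the first
`m` digits of the coordinate `j` are `C j * u + σ j`, `u` running through `(ZMod p)^m`; `C j` are
the generating matrices, `σ j` the shifts; the digits behind the first `m` are arbitrary. -/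
def IsDigital (p m : ℕ) {d : ℕ} (ξ : Fin (p ^ m) → Fin d → ℝ) : Prop :=
  ∃ (e : Fin (p ^ m) ≃ (Fin m → ZMod p)) (C : Fin d → Matrix (Fin m) (Fin m) (ZMod p))
    (σ : Fin d → Fin m → ZMod p), ∀ μ j (i : Fin m),
      digit p (ξ μ j) i = (C j).mulVec (e μ) i + σ j i

open Classical in
/-- `(t,s)`-sequences in base `b`: for all `m` and `k` every elementary interval
`∏ [v_i b^(-a_i), (v_i+1) b^(-a_i))` of volume `b^(t-m)` contains exactly `b^t` of the points `x n`,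
`k b^m ≤ n < (k+1) b^m`. -/
def IsSeq (b t : ℕ) {s : ℕ} (x : ℕ → Fin s → ℝ) : Prop :=
  ∀ m k : ℕ, ∀ a v : Fin s → ℕ, ∑ i, a i + t = m → (∀ i, v i < b ^ a i) →
    ((Ico (k * b ^ m) ((k + 1) * b ^ m)).filter (fun n => ∀ i, (v i : ℝ) / (b:ℝ) ^ a i ≤ x n i ∧
      x n i < ((v i : ℝ) + 1) / (b:ℝ) ^ a i)).card = b ^ t

/-- Digitally shifted digital sequences over `ZMod p`: the digit `i` of the coordinate `j` of `x n`
is `∑_r C j i r * n_r + σ j i`, where `n_r = ⌊n / p^r⌋ mod p` are the base `p` digits of `n`. -/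
def IsDigitalSeq (p : ℕ) {s : ℕ} (x : ℕ → Fin s → ℝ) : Prop :=
  ∃ (C : Fin s → ℕ → ℕ → ZMod p) (σ : Fin s → ℕ → ZMod p), ∀ m n : ℕ, n < p ^ m → ∀ j i,
    digit p (x n j) i = ∑ r ∈ range m, C j i r * ((n / p ^ r : ℕ) : ZMod p) + σ j i

/-- **Theorem.** The star discrepancy of digital nets and digital sequences. -/
theorem result (p : ℕ) (hp : p.Prime) (t : ℕ) :
    (∀ d : ℕ, 3 ≤ d → ∃ c : ℝ, 0 < c ∧ ∀ (m : ℕ) (ξ : Fin (p ^ m) → Fin d → ℝ),
      (∀ μ j, 0 ≤ ξ μ j ∧ ξ μ j < 1) → IsDigital p m ξ → IsNet p t m ξ →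
        ENNReal.ofReal (c * (m:ℝ) ^ (d - 1) / (p:ℝ) ^ m) ≤ starDisc ξ ∧
        ENNReal.ofReal (c * (m:ℝ) ^ ((1:ℝ) / 9)) * optDisc (p ^ m) d ≤ starDisc ξ) ∧
    (∀ s : ℕ, 2 ≤ s → ∃ c : ℝ, 0 < c ∧ ∀ x : ℕ → Fin s → ℝ,
      (∀ n j, 0 ≤ x n j ∧ x n j < 1) → IsDigitalSeq p x → IsSeq p t x →
        ∀ m : ℕ, ∃ N : ℕ, 1 ≤ N ∧ N ≤ p ^ m ∧
          ENNReal.ofReal (c * (m:ℝ) ^ s / N) ≤ starDisc (fun μ : Fin N => x μ)) := by
  haveI : Fact p.Prime := ⟨hp⟩
  constructor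
  · intro d hd
    obtain ⟨c₁, hc₁, h₁⟩ := Pool.Agent.NH43.N.digital_nets p d t hd
    obtain ⟨c₂, hc₂, h₂⟩ := Pool.Agent.NH43.N.t_Sep p d hd c₁ hc₁
    refine ⟨min (min c₁ c₂) 1, lt_min (lt_min hc₁ hc₂) one_pos, ?_⟩
    intro m ξ hξ hdig hnet
    have h3 : ENNReal.ofReal (c₁ * (m:ℝ) ^ (d - 1) / (p:ℝ) ^ m) ≤ starDisc ξ :=
      h₁ m ξ hξ hdig hnet
    constructor
    · refine le_trans (ENNReal.ofReal_le_ofReal ?_) h3
      refine div_le_div_of_nonneg_right ?_ (by positivity)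
      exact mul_le_mul_of_nonneg_right ((min_le_left _ _).trans (min_le_left _ _)) (by positivity)
    · by_cases hm : 2 ≤ m
      · refine le_trans ?_ ((h₂ m hm).trans h3)
        refine mul_le_mul_left (ENNReal.ofReal_le_ofReal ?_) _
        exact mul_le_mul_of_nonneg_right ((min_le_left _ _).trans (min_le_right _ _))
          (by positivity)
      · have h4 : optDisc (p ^ m) d ≤ starDisc ξ := iInf₂_le ξ (fun μ =>
          ⟨fun j => (hξ μ j).1, fun j => (hξ μ j).2.le⟩)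
        refine le_trans ?_ h4
        have h5 : ENNReal.ofReal (min (min c₁ c₂) 1 * (m:ℝ) ^ ((1:ℝ) / 9)) ≤ 1 := by
          rw [ENNReal.ofReal_le_one]
          have h6 : (m:ℝ) ^ ((1:ℝ) / 9) ≤ 1 := by
            refine Real.rpow_le_one (by positivity) ?_ (by norm_num)
            exact_mod_cast (by omega : m ≤ 1)
          have h7 : min (min c₁ c₂) 1 ≤ 1 := min_le_right _ _
          have h8 : 0 ≤ min (min c₁ c₂) 1 := (lt_min (lt_min hc₁ hc₂) one_pos).le
          have h9 : (0:ℝ) ≤ (m:ℝ) ^ ((1:ℝ) / 9) := by positivity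
          nlinarith
        calc _ ≤ 1 * optDisc (p ^ m) d := mul_le_mul_left h5 _
          _ = optDisc (p ^ m) d := one_mul _
  · intro s hs
    exact Pool.Agent.NH43.N.t_Seq p s t (by omega)
      (Pool.Agent.NH43.N.digital_anch Pool.Agent.NH43.N.t_Win Pool.Agent.NH43.N.t_Sub
        (Pool.Agent.NH43.N.t_Red Pool.Agent.NH43.N.t_Dig Pool.Agent.NH43.N.t_Anch)
        Pool.Agent.NH43.N.t_Net Pool.Agent.NH43.N.all_Local p (s + 1) t (by omega))

end Pool.Agent.Results.MP_173de9_an.DigitalNets
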