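import Pool.Agent.NH43.L.Fin2
import Pool.Agent.Results.MP_173de9_an.LargeExponents

/-!
# The order of the optimal `L_q` star discrepancy for exponents `q` up to a power of `ln m`

For every `d ≥ 3` there are `c, C > 0` such that
`c √q (ln m)^((d-1)/2) / m ≤ D(m,d)_q ≤ C √q (ln m)^((d-1)/2) / m`
for all `m ≥ 3` and all real `q` with `1 ≤ q ≤ (ln m)^(1/(2d+2))`.
-/

set_option autoImplicit false

namespace Pool.Agent.Results.MP_173de9_an.GrowingExponents

open MeasureTheory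

/-- The local discrepancy `∏ x_j - (1/m) Σ_μ χ_{[0,x]}(ξ^μ)` of `m` points `ξ` at `x`. -/
noncomputable def localDisc {m d : ℕ} (ξ : Fin m → Fin d → ℝ) (x : Fin d → ℝ) : ℝ :=
  ∏ j, x j - (1 / (m:ℝ)) * ∑ μ : Fin m, (Set.Icc (0 : Fin d → ℝ) x).indicator (fun _ => (1:ℝ)) (ξ μ)

/-- `D(ξ,m,d)_q`: the `L_q` norm of the local discrepancy over `[0,1]^d`. -/
noncomputable def starDisc (q : ENNReal) {m d : ℕ} (ξ : Fin m → Fin d → ℝ) : ENNReal :=
  eLpNorm (localDisc ξ) q (volume.restrict (Set.Icc (0 : Fin d → ℝ) 1))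

/-- `D(m,d)_q`: the infimum over all `m`-point sets (repetitions allowed) in `[0,1]^d`. -/
noncomputable def optDisc (q : ENNReal) (m d : ℕ) : ENNReal :=
  ⨅ (ξ : Fin m → Fin d → ℝ) (_ : ∀ μ, ξ μ ∈ Set.Icc (0 : Fin d → ℝ) 1), starDisc q ξ

theorem optDisc_eq (q : ENNReal) (m d : ℕ) : optDisc q m d = LargeExponents.optDisc q m d := by
  unfold optDisc LargeExponents.optDisc
  refine iInf_congr fun ξ => iInf_congr fun _ => ?_
  unfold starDisc LargeExponents.starDisc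
  congr 1
  funext x
  unfold localDisc LargeExponents.localDisc
  rw [Finset.mul_sum]

/-- the upper bound -/
theorem upper (d : ℕ) (hd : 2 ≤ d) : ∃ C : ℝ, 0 < C ∧ ∀ m : ℕ, 3 ≤ m → ∀ q : ℝ, 1 ≤ q →
    q ≤ (Real.log m) ^ (1 / (2 * (d : ℝ) + 2)) →
    optDisc (ENNReal.ofReal q) m d ≤
      ENNReal.ofReal (C * Real.sqrt q * (Real.log m) ^ (((d : ℝ) - 1) / 2) / m) := by
  obtain ⟨C, hC, H⟩ := NH43.L.upper_q_all d hd
  refine ⟨C, hC, fun m hm q h1 h2 => ?_⟩
  obtain ⟨ξ, hξ, hb⟩ := H m hm q h1 h2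
  exact (iInf₂_le ξ hξ).trans hb

/-- the lower bound -/
theorem lower (d : ℕ) (hd : 3 ≤ d) : ∃ c : ℝ, 0 < c ∧ ∀ m : ℕ, 3 ≤ m → ∀ q : ℝ, 1 ≤ q →
    q ≤ (Real.log m) ^ (1 / (2 * (d : ℝ) + 2)) →
    ENNReal.ofReal (c * Real.sqrt q * (Real.log m) ^ (((d : ℝ) - 1) / 2) / m) ≤
      optDisc (ENNReal.ofReal q) m d := by
  obtain ⟨c, hc, H⟩ := LargeExponents.result d hd
  have hdR : (3 : ℝ) ≤ d := by exact_mod_cast hd
  -- `(ln ln m)^(1/2) ≤ K (ln m)^(1/(2d) - 1/(4d+4))`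
  set e : ℝ := 1 / (2 * (d : ℝ)) - 1 / (4 * (d : ℝ) + 4) with he
  have he0 : 0 < e := by
    rw [he, sub_pos]
    apply one_div_lt_one_div_of_lt <;> linarith
  set K : ℝ := Real.sqrt (1 / (2 * e)) with hK
  have hK0 : 0 < K := by positivity
  refine ⟨c * min 1 (1 / K), by positivity, fun m hm q h1 h2 => ?_⟩
  have hm0 : (0 : ℝ) < m := by exact_mod_cast (by omega : 0 < m)
  have hlog1 : 1 ≤ Real.log m := by
    have h3' : (3 : ℝ) ≤ m := by exact_mod_cast hm
    rw [Real.le_log_iff_exp_le hm0]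
    exact (Real.exp_one_lt_d9.le.trans (by norm_num)).trans h3'
  have hlog1' : 1 < Real.log m := by
    have h3' : (3 : ℝ) ≤ m := by exact_mod_cast hm
    rw [Real.lt_log_iff_exp_lt hm0]
    exact (Real.exp_one_lt_d9.trans (by norm_num)).trans_le h3'
  have hlog0 : 0 < Real.log m := by linarith
  have hll : 0 < Real.log (Real.log m) := Real.log_pos hlog1'
  obtain ⟨H1, H2⟩ := H m hm (ENNReal.ofReal q) (by
    rw [← ENNReal.ofReal_one]
    exact ENNReal.ofReal_le_ofReal h1)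
  rw [optDisc_eq]
  refine le_trans ?_ (H1.trans H2)
  have e1 : c * min 1 (1 / K) * Real.sqrt q * (Real.log m) ^ (((d : ℝ) - 1) / 2) / m =
      (c * (Real.log m) ^ (((d : ℝ) - 1) / 2) / m) * (min 1 (1 / K) * Real.sqrt q) := by ring
  rw [e1, ENNReal.ofReal_mul (by positivity)]
  apply mul_le_mul_of_nonneg_left _ bot_le
  rw [le_min_iff]
  have hq0 : 0 ≤ Real.sqrt q := Real.sqrt_nonneg _
  constructor
  · rw [ENNReal.ofReal_rpow_of_nonneg (by linarith) (by norm_num), ← Real.sqrt_eq_rpow]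
    apply ENNReal.ofReal_le_ofReal
    have : min 1 (1 / K) ≤ 1 := min_le_left _ _
    nlinarith
  · apply ENNReal.ofReal_le_ofReal
    rw [← Real.sqrt_eq_rpow (Real.log (Real.log m)), le_div_iff₀ (Real.sqrt_pos.2 hll)]
    have a1 : Real.sqrt q ≤ (Real.log m) ^ (1 / (4 * (d : ℝ) + 4)) := by
      calc Real.sqrt q ≤ Real.sqrt ((Real.log m) ^ (1 / (2 * (d : ℝ) + 2))) := Real.sqrt_le_sqrt h2
        _ = (Real.log m) ^ (1 / (4 * (d : ℝ) + 4)) := by
            rw [Real.sqrt_eq_rpow, ← Real.rpow_mul hlog0.le]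
            congr 1
            field_simp
            ring
    have a2 : Real.sqrt (Real.log (Real.log m)) ≤ K * (Real.log m) ^ e := by
      have a3 := Real.log_le_rpow_div hlog0.le (by positivity : 0 < 2 * e)
      calc Real.sqrt (Real.log (Real.log m)) ≤ Real.sqrt ((Real.log m) ^ (2 * e) / (2 * e)) :=
            Real.sqrt_le_sqrt a3
        _ = K * (Real.log m) ^ e := by
            rw [hK, div_eq_mul_one_div, Real.sqrt_mul (by positivity), mul_comm]
            congr 1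
            rw [Real.sqrt_eq_rpow, ← Real.rpow_mul hlog0.le]
            congr 1
            ring
    have a4 : min 1 (1 / K) * K ≤ 1 := by
      calc min 1 (1 / K) * K ≤ 1 / K * K := mul_le_mul_of_nonneg_right (min_le_right _ _) hK0.le
        _ = 1 := by field_simp
    have a5 : (Real.log m) ^ (1 / (4 * (d : ℝ) + 4)) * (Real.log m) ^ e =
        (Real.log m) ^ (1 / (2 * (d : ℝ))) := by
      rw [← Real.rpow_add hlog0, he]
      congr 1
      ring
    have a6 : 0 ≤ min 1 (1 / K) := by positivity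
    calc min 1 (1 / K) * Real.sqrt q * Real.sqrt (Real.log (Real.log m))
        ≤ min 1 (1 / K) * (Real.log m) ^ (1 / (4 * (d : ℝ) + 4)) * (K * (Real.log m) ^ e) := by
          gcongr
      _ = (min 1 (1 / K) * K) * ((Real.log m) ^ (1 / (4 * (d : ℝ) + 4)) * (Real.log m) ^ e) := by
          ring
      _ ≤ 1 * (Real.log m) ^ (1 / (2 * (d : ℝ))) := by
          rw [a5]
          apply mul_le_mul_of_nonneg_right a4 (by positivity)
      _ = (Real.log m) ^ (1 / (2 * (d : ℝ))) := one_mul _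

/-- **The order of `D(m,d)_q` for exponents up to a power of `ln m`.** For every `d ≥ 3` there are
`c, C > 0` such that for all `m ≥ 3` and all real `q` with `1 ≤ q ≤ (ln m)^(1/(2d+2))`
`c √q (ln m)^((d-1)/2) / m ≤ D(m,d)_q ≤ C √q (ln m)^((d-1)/2) / m`. -/
theorem result (d : ℕ) (hd : 3 ≤ d) : ∃ c C : ℝ, 0 < c ∧ 0 < C ∧ ∀ m : ℕ, 3 ≤ m →
    ∀ q : ℝ, 1 ≤ q → q ≤ (Real.log m) ^ (1 / (2 * (d : ℝ) + 2)) →
      ENNReal.ofReal (c * Real.sqrt q * (Real.log m) ^ (((d : ℝ) - 1) / 2) / m) ≤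
        optDisc (ENNReal.ofReal q) m d ∧
      optDisc (ENNReal.ofReal q) m d ≤
        ENNReal.ofReal (C * Real.sqrt q * (Real.log m) ^ (((d : ℝ) - 1) / 2) / m) := by
  obtain ⟨c, hc, hl⟩ := lower d hd
  obtain ⟨C, hC, hu⟩ := upper d (by omega)
  exact ⟨c, C, hc, hC, fun m hm q h1 h2 => ⟨hl m hm q h1 h2, hu m hm q h1 h2⟩⟩

end Pool.Agent.Results.MP_173de9_an.GrowingExponents
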