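import Pool.Agent.NH99.AL.All

/-!
# A lower bound for the star discrepancy in every dimension `d ≥ 3`: the exponent `d / 2`

For every `d ≥ 3` there are `c > 0` and `A` such that for all `m ≥ 3` the optimal `L_∞` star
discrepancy of `m` points in the `d`-dimensional unit cube, even with arbitrary real weights, is at
least `c (ln m)^(d/2) / (m (1 + ln ln m)^A)`; more generally, for all `1 ≤ p ≤ ∞` the optimal weighted
`L_p` star discrepancy is at least
`c (ln m)^((d-1)/2) · √(min (p, ln m)) / (m (1 + ln ln m)^A)`.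
-/

set_option autoImplicit false

namespace Pool.Agent.Results.MP_173de9_an.StarDiscHalfDim

open MeasureTheory

/-- The local discrepancy `∏ x_j - Σ_μ λ_μ χ_{[0,x]}(ξ^μ)` of the points `ξ` with the weights `λ`. -/
noncomputable def localDisc {m d : ℕ} (lam : Fin m → ℝ) (ξ : Fin m → Fin d → ℝ) (x : Fin d → ℝ) : ℝ :=
  ∏ j, x j - ∑ μ : Fin m, lam μ * (Set.Icc (0 : Fin d → ℝ) x).indicator (fun _ => (1:ℝ)) (ξ μ)

/-- The `L_p` norm of the weighted local discrepancy over `[0,1]^d`. -/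
noncomputable def starDisc (p : ENNReal) {m d : ℕ} (lam : Fin m → ℝ) (ξ : Fin m → Fin d → ℝ) :
    ENNReal :=
  eLpNorm (localDisc lam ξ) p (volume.restrict (Set.Icc (0 : Fin d → ℝ) 1))

/-- `D(m,d)_p`: the infimum over all `m`-point sets (repetitions allowed) in `[0,1]^d`, all weights
equal to `1 / m`. -/
noncomputable def optDisc (p : ENNReal) (m d : ℕ) : ENNReal :=
  ⨅ (ξ : Fin m → Fin d → ℝ) (_ : ∀ μ, ξ μ ∈ Set.Icc (0 : Fin d → ℝ) 1),
    starDisc p (fun _ => 1 / (m:ℝ)) ξ

/-- The infimum over all `m`-point sets in `[0,1]^d` and all real weights. -/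
noncomputable def optWeighted (p : ENNReal) (m d : ℕ) : ENNReal :=
  ⨅ (lam : Fin m → ℝ) (ξ : Fin m → Fin d → ℝ) (_ : ∀ μ, ξ μ ∈ Set.Icc (0 : Fin d → ℝ) 1),
    starDisc p lam ξ

/-- For every `d ≥ 3` there are `c > 0` and `A` such that for all `m ≥ 3`: (1) for all
`1 ≤ p ≤ ∞` the optimal `L_p` star discrepancy in dimension `d` with arbitrary real weights is at
least `c (ln m)^((d-1)/2) / (m (1 + ln ln m)^A)` times the smaller one of `√p` and `√(ln m)`;
(2) for `p = ∞` it is at least `c (ln m)^(d/2) / (m (1 + ln ln m)^A)`; (3) it is at most the optimal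
`L_p` star discrepancy `D(m,d)_p`, which so satisfies the same bounds. -/
theorem result (d : ℕ) (hd : 3 ≤ d) : ∃ c : ℝ, 0 < c ∧ ∃ A : ℕ, ∀ m : ℕ, 3 ≤ m →
    (∀ p : ENNReal, 1 ≤ p →
      ENNReal.ofReal (c * (Real.log m) ^ (((d : ℝ) - 1) / 2) /
          (m * (1 + Real.log (Real.log m)) ^ A)) *
          min (p ^ (1 / 2 : ℝ)) (ENNReal.ofReal ((Real.log m) ^ (1 / 2 : ℝ))) ≤
        optWeighted p m d) ∧
    ENNReal.ofReal (c * (Real.log m) ^ ((d : ℝ) / 2) / (m * (1 + Real.log (Real.log m)) ^ A)) ≤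
      optWeighted ⊤ m d ∧
    ∀ p : ENNReal, optWeighted p m d ≤ optDisc p m d := by
  obtain ⟨c, hc, A, H⟩ := Pool.Agent.NH99.AL.all_FINL d hd
  have key : ∀ m : ℕ, 3 ≤ m → ∀ p : ENNReal, 1 ≤ p →
      ENNReal.ofReal (c * (Real.log m) ^ (((d : ℝ) - 1) / 2) /
          (m * (1 + Real.log (Real.log m)) ^ A)) *
          min (p ^ (1 / 2 : ℝ)) (ENNReal.ofReal ((Real.log m) ^ (1 / 2 : ℝ))) ≤
        optWeighted p m d := by
    intro m hm p hp
    unfold optWeighted
    exact le_iInf fun lam => le_iInf₂ fun ξ hξ => H m hm p hp lam ξ hξ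
  refine ⟨c, hc, A, fun m hm => ⟨key m hm, ?_, fun p => ?_⟩⟩
  · refine le_trans (le_of_eq ?_) (key m hm ⊤ le_top)
    have hm3 : (3 : ℝ) ≤ m := by exact_mod_cast hm
    have hmpos : (0 : ℝ) < m := by linarith
    have hL1 : 1 ≤ Real.log m := by
      rw [Real.le_log_iff_exp_le hmpos]
      have h1 : Real.exp 1 < 3 := lt_trans Real.exp_one_lt_d9 (by norm_num)
      linarith
    have hL0 : 0 < Real.log m := by linarith
    have hLL : 0 ≤ Real.log (Real.log m) := Real.log_nonneg hL1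
    rw [ENNReal.top_rpow_of_pos (by norm_num), min_eq_right le_top,
      ← ENNReal.ofReal_mul (by positivity)]
    congr 1
    have : (Real.log m) ^ ((d : ℝ) / 2) =
        (Real.log m) ^ (((d : ℝ) - 1) / 2) * (Real.log m) ^ (1 / 2 : ℝ) := by
      rw [← Real.rpow_add hL0]
      congr 1
      ring
    rw [this]
    ring
  · unfold optWeighted optDisc
    exact iInf_le _ (fun _ : Fin m => 1 / (m : ℝ))

end Pool.Agent.Results.MP_173de9_an.StarDiscHalfDim
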